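import Mathlib

namespace Pool.Agent.Results.MP_2e9bdd_an.Metrisable

open Set Filter Topology

/-- the lattice simultaneous packing and covering constant -/
noncomputable def gammaStar (X : Type) [NormedAddCommGroup X] : ℝ :=
  sInf {r : ℝ | 0 < r ∧ ∃ P : AddSubgroup X,
    (∀ x : X, ∃ p ∈ P, ‖x - p‖ ≤ r) ∧ ∀ p ∈ P, ∀ q ∈ P, p ≠ q → 2 ≤ ‖p - q‖}

variable {K : Type} [MetricSpace K] [CompactSpace K]

def Bd (P : Set K) (h : C(K, ℝ)) (R : ℝ) : Prop := ∀ x ∈ P, |h x| ≤ R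

def Inv (P : Set K) (L : AddSubgroup C(K, ℝ)) : Prop :=
  (∀ h ∈ L, ∀ R < 2, Bd P h R → h = 0) ∧ (∀ R, {h | h ∈ L ∧ Bd P h R}.Finite) ∧
    ∀ η > 0, ∃ δ > 0, ∀ h ∈ L, ∀ R, Bd P h R → ∀ s ∈ P, ∀ t ∈ P, dist s t < δ → |h s - h t| ≤ η * R

omit [CompactSpace K] in
lemma inf_of {P U : Set K} (hP : Preperfect P) (hU : IsOpen U) {x : K} (hx : x ∈ P) (hxU : x ∈ U) :
    (U ∩ P).Infinite :=
  Set.Infinite.of_accPt ((hP.open_inter hU) x ⟨hxU, hx⟩)

omit [MetricSpace K] [CompactSpace K] in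
lemma sel {ι : Type} (O : ι → Set K) (H : Set ι) (hH : H.Finite) (hO : ∀ i, (O i).Infinite) :
    ∃ x : ι → K, InjOn x H ∧ ∀ i, x i ∈ O i := by
  classical
  induction H, hH using Set.Finite.induction_on with
  | empty => exact ⟨fun i => (hO i).nonempty.choose, injOn_empty _, fun i => (hO i).nonempty.choose_spec⟩
  | @insert a s ha hs ih =>
    obtain ⟨x, h1, h2⟩ := ih
    obtain ⟨y, hy, hy'⟩ := (hO a).exists_notMem_finite (hs.image x)
    have e : ∀ i ∈ s, Function.update x a y i = x i := fun i hi =>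
      Function.update_of_ne (by rintro rfl; exact ha hi) _ _
    refine ⟨Function.update x a y, (injOn_insert ha).2 ⟨h1.congr fun i hi => (e i hi).symm, ?_⟩, fun i => ?_⟩
    · rw [Function.update_self, image_congr e]; exact hy'
    · by_cases h : i = a
      · subst h; simpa using hy
      · rw [Function.update_of_ne h]; exact h2 i

omit [CompactSpace K] in
lemma zap (h g : C(K, ℝ)) (n : ℤ) (y : K) : (h + n • g) y = h y + n * g y := by
  rw [ContinuousMap.add_apply, ContinuousMap.zsmul_apply, zsmul_eq_mul]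

lemma step {P : Set K} (hP : Preperfect P) {ε : ℝ} (hε : 0 < ε) (L : AddSubgroup C(K, ℝ)) (hL : Inv P L)
    (f : C(K, ℝ)) : ∃ L', L ≤ L' ∧ Inv P L' ∧ ∃ g ∈ L', Bd P (f - g) (1 + ε) := by
  by_cases h0 : ∃ g ∈ L, Bd P (f - g) (1 + ε)
  · exact ⟨L, le_rfl, hL, h0⟩
  simp only [Bd, not_exists, not_and, not_forall, not_le, exists_prop] at h0
  set M := ‖f‖ + 1 + ε with hM
  have hM0 : 0 < M := by positivity
  obtain ⟨δ, hδ, hd⟩ := hL.2.2 (ε / (1 + M)) (by positivity)
  obtain ⟨p, hp, -⟩ := h0 0 L.zero_mem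
  have h1 : ∀ h : L, ∃ b : Bool, ({x | 1 + ε < (if b then 1 else -1) * (f - h.1) x} ∩ P).Infinite := by
    intro h
    obtain ⟨x, hx, h2⟩ := h0 h.1 h.2
    rcases lt_abs.1 h2 with h3 | h3
    · exact ⟨true, inf_of hP (isOpen_lt continuous_const (by fun_prop)) hx (by simpa using h3)⟩
    · exact ⟨false, inf_of hP (isOpen_lt continuous_const (by fun_prop)) hx (by simpa using h3)⟩
  choose b hb using h1
  have hU : ((Metric.ball p (δ / 2) ∩ {x | |f x - f p| < ε / 2}) ∩ P).Infinite :=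
    inf_of hP (Metric.isOpen_ball.inter (isOpen_lt (by fun_prop) continuous_const)) hp
      ⟨Metric.mem_ball_self (by positivity), by simpa using hε⟩
  let sg : L ⊕ Bool → Bool := Sum.elim b id
  have hH : (Sum.inl '' {h : L | Bd P h.1 (M + 2)} ∪ range Sum.inr : Set (L ⊕ Bool)).Finite :=
    (((hL.2.1 (M + 2)).preimage Subtype.val_injective.injOn).subset fun h hh => ⟨h.2, hh⟩).image _ |>.union
      (finite_range _)
  obtain ⟨x, x1, x2⟩ := sel (Sum.elim (fun h : L => {x | 1 + ε < (if b h then 1 else -1) * (f - h.1) x} ∩ P)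
    fun _ => (Metric.ball p (δ / 2) ∩ {x | |f x - f p| < ε / 2}) ∩ P) _ hH (by rintro (h | c); exacts [hb h, hU])
  set H : Set (L ⊕ Bool) := Sum.inl '' {h : L | Bd P h.1 (M + 2)} ∪ range Sum.inr
  obtain ⟨u, u0, u1, u2⟩ := exists_continuous_zero_one_of_isClosed
    ((hH.inter_of_left {i | sg i = false}).image x).isClosed ((hH.inter_of_left {i | sg i = true}).image x).isClosed
    (by
      rw [Set.disjoint_left]
      rintro _ ⟨i, hi, rfl⟩ ⟨j, hj, e⟩
      have := x1 hj.1 hi.1 e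
      subst this
      have a1 : sg j = false := hi.2
      have a2 : sg j = true := hj.2
      simp [a1] at a2)
  let g : C(K, ℝ) := f + (1 + ε) • ((2 : ℝ) • u - 1)
  have g1 : ∀ y, g y = f y + (1 + ε) * (2 * u y - 1) := fun y => by simp [g]
  have g2 : ∀ i ∈ H, g (x i) = f (x i) + (1 + ε) * (if sg i then 1 else -1) := by
    intro i hi
    rw [g1]
    cases h : sg i
    · rw [u0 ⟨i, ⟨hi, h⟩, rfl⟩]; simp
    · rw [u1 ⟨i, ⟨hi, h⟩, rfl⟩]; norm_num
  have g3 : ∀ y, |f y - g y| ≤ 1 + ε := fun y => by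
    have := u2 y
    rw [g1, abs_le]; constructor <;> nlinarith [this.1, this.2]
  have g4 : ∀ y, |g y| ≤ M := fun y => by
    have a1 := g3 y
    have a2 : |f y| ≤ ‖f‖ := f.norm_coe_le_norm y
    rw [abs_le] at *; constructor <;> linarith [a1.1, a1.2, a2.1, a2.2]
  have hb' : ∀ (n : ℤ), ∀ h, ∀ R, Bd P (h + n • g) R → Bd P h (R + |(n : ℝ)| * M) := by
    intro n h R hR y hy
    have a1 := hR y hy
    rw [zap] at a1
    have a2 : |(n : ℝ) * g y| ≤ |(n : ℝ)| * M := by rw [abs_mul]; gcongr; exact g4 y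
    have := abs_sub (h y + n * g y) (n * g y)
    rw [add_sub_cancel_right] at this
    linarith
  have key : ∀ (n : ℤ), ∀ h ∈ L, ∀ R, Bd P (h + n • g) R → |(n : ℝ)| ≤ R := by
    intro n h hh R hR
    have s1 := x2 (Sum.inr true)
    have t1 := x2 (Sum.inr false)
    have s2 := g2 (Sum.inr true) (Or.inr ⟨_, rfl⟩)
    have t2 := g2 (Sum.inr false) (Or.inr ⟨_, rfl⟩)
    generalize x (Sum.inr true) = s at s1 s2
    generalize x (Sum.inr false) = t at t1 t2
    simp only [sg, Sum.elim_inr, id, if_true, Bool.false_eq_true, if_false, mem_inter_iff, Metric.mem_ball,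
      mem_ofPred_eq] at s1 s2 t1 t2
    have a1 := hd h hh _ (hb' n h R hR) s s1.2 t t1.2 (by linarith [dist_triangle_right s t p, s1.1.1, t1.1.1])
    have a2 := hR s s1.2
    have a3 := hR t t1.2
    rw [zap] at a2 a3
    have a4 : 2 + ε ≤ g s - g t := by
      have b1 := abs_lt.1 s1.1.2
      have b2 := abs_lt.1 t1.1.2
      linarith [b1.1, b2.2]
    have a5 : |(n : ℝ)| * (2 + ε) ≤ |(n : ℝ) * (g s - g t)| := by
      rw [abs_mul]; gcongr; exact a4.trans (le_abs_self _)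
    have a6 : |(n : ℝ) * (g s - g t)| ≤ 2 * R + |h s - h t| := by
      rw [abs_le] at a2 a3 ⊢
      constructor <;> nlinarith [le_abs_self (h s - h t), neg_abs_le (h s - h t), a2.1, a2.2, a3.1, a3.2]
    by_contra hc
    push Not at hc
    have a7 : ε / (1 + M) * (R + |(n : ℝ)| * M) ≤ ε * |(n : ℝ)| := by
      rw [div_mul_eq_mul_div, div_le_iff₀ (by positivity)]; nlinarith
    nlinarith
  have mem : ∀ k, k ∈ L ⊔ AddSubgroup.zmultiples g → ∃ h ∈ L, ∃ n : ℤ, k = h + n • g := by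
    intro k hk
    obtain ⟨h, hh, _, ⟨n, rfl⟩, rfl⟩ := AddSubgroup.mem_sup.1 hk
    exact ⟨h, hh, n, rfl⟩
  have one : ∀ h ∈ L, ∀ R < 2, ¬ Bd P (g - h) R := by
    intro h hh R hR hB
    have a1 : Bd P h (M + 2) := fun y hy => by
      have b1 := hB y hy
      have b2 := g4 y
      simp only [ContinuousMap.sub_apply] at b1
      rw [abs_le] at *; constructor <;> linarith [b1.1, b1.2, b2.1, b2.2]
    have a2 := g2 (Sum.inl ⟨h, hh⟩) (Or.inl ⟨_, a1, rfl⟩)
    have a3 := x2 (Sum.inl ⟨h, hh⟩)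
    generalize x (Sum.inl ⟨h, hh⟩) = y at a2 a3
    simp only [sg, Sum.elim_inl, mem_inter_iff, mem_ofPred_eq, ContinuousMap.sub_apply] at a2 a3
    have a4 := abs_le.1 (hB y a3.2)
    simp only [ContinuousMap.sub_apply] at a4
    have a5 := a3.1
    split_ifs at a2 a5 <;> linarith [a4.1, a4.2]
  refine ⟨L ⊔ AddSubgroup.zmultiples g, le_sup_left, ⟨fun k hk R hR hB => ?_, fun R => ?_, fun η hη => ?_⟩,
    g, AddSubgroup.mem_sup_right (AddSubgroup.mem_zmultiples g), fun y _ => g3 y⟩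
  · obtain ⟨h, hh, n, rfl⟩ := mem k hk
    have a1 : |n| < 2 := by exact_mod_cast (key n h hh R hB).trans_lt hR
    rw [abs_lt] at a1
    obtain rfl | rfl | rfl : n = -1 ∨ n = 0 ∨ n = 1 := by omega
    · refine absurd (fun y hy => ?_) (one h hh R hR)
      have := hB y hy
      rw [← abs_neg]
      simpa [sub_eq_add_neg, add_comm] using this
    · simpa using hL.1 h hh R hR (by simpa using hB)
    · refine absurd (fun y hy => ?_) (one (-h) (L.neg_mem hh) R hR)
      simpa [add_comm] using hB y hy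
  · refine (((hL.2.1 (R + R * M)).prod (finite_Icc (-⌈R⌉) ⌈R⌉)).image fun q => q.1 + q.2 • g).subset ?_
    rintro k ⟨hk, hB⟩
    obtain ⟨h, hh, n, rfl⟩ := mem k hk
    have a1 := key n h hh R hB
    have a2 : |n| ≤ ⌈R⌉ := by exact_mod_cast a1.trans (Int.le_ceil R)
    refine ⟨(h, n), ⟨⟨hh, fun y hy => (hb' n h R hB y hy).trans (by gcongr)⟩, abs_le.1 a2⟩, rfl⟩
  · obtain ⟨δ1, d1, d2⟩ := hL.2.2 (η / 2 / (1 + M)) (by positivity)
    obtain ⟨δ2, d3, d4⟩ := Metric.uniformContinuous_iff.1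
      (CompactSpace.uniformContinuous_of_continuous g.continuous) (η / 2) (by positivity)
    refine ⟨min δ1 δ2, lt_min d1 d3, fun k hk R hB s hs t ht hst => ?_⟩
    obtain ⟨h, hh, n, rfl⟩ := mem k hk
    have a1 := key n h hh R hB
    have a2 := d2 h hh _ (hb' n h R hB) s hs t ht (hst.trans_le (min_le_left _ _))
    have a3 : |g s - g t| < η / 2 := d4 (hst.trans_le (min_le_right _ _))
    have a4 : |(n : ℝ) * (g s - g t)| ≤ R * (η / 2) := by
      rw [abs_mul]; exact mul_le_mul a1 a3.le (abs_nonneg _) ((abs_nonneg _).trans a1)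
    have a5 : η / 2 / (1 + M) * (R + |(n : ℝ)| * M) ≤ η / 2 * R := by
      rw [div_mul_eq_mul_div, div_le_iff₀ (by positivity)]
      have : |(n : ℝ)| * M ≤ R * M := by gcongr
      nlinarith
    have a6 := abs_add_le (h s - h t) (n * (g s - g t))
    rw [zap, zap, show h s + n * g s - (h t + n * g t) = h s - h t + n * (g s - g t) by ring]
    linarith

lemma lattice {P : Set K} (hP : Preperfect P) {ε : ℝ} (hε : 0 < ε) : ∃ L : AddSubgroup C(K, ℝ),
    (∀ h ∈ L, ∀ R < 2, Bd P h R → h = 0) ∧ ∀ f, ∃ g ∈ L, Bd P (f - g) (1 + 2 * ε) := by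
  obtain ⟨f, hf⟩ := TopologicalSpace.exists_dense_seq C(K, ℝ)
  choose nx n1 n2 n3 using step hP hε
  have h0 : Inv P ⊥ := ⟨fun h hh _ _ _ => hh, fun R => (finite_singleton 0).subset fun h hh => hh.1,
    fun η hη => ⟨1, one_pos, fun h hh R hR s hs t _ _ => by
      have h1 : h = 0 := hh
      have := hR s hs
      subst h1
      simp only [ContinuousMap.zero_apply, abs_zero, sub_self] at this ⊢
      positivity⟩⟩
  let S : ℕ → {L // Inv P L} := fun n => Nat.rec ⟨⊥, h0⟩ (fun k L => ⟨nx L.1 L.2 (f k), n2 _ _ _⟩) n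
  have hm : Monotone fun n => (S n).1 := monotone_nat_of_le_succ fun n => n1 _ _ _
  refine ⟨⨆ n, (S n).1, fun h hh => ?_, fun φ => ?_⟩
  · obtain ⟨n, hn⟩ := (AddSubgroup.mem_iSup_of_directed hm.directed_le).1 hh
    exact (S n).2.1 h hn
  · obtain ⟨k, hk⟩ := hf.exists_dist_lt φ hε
    obtain ⟨g, g1, g2⟩ := n3 (S k).1 (S k).2 (f k)
    refine ⟨g, AddSubgroup.mem_iSup_of_mem (k + 1) g1, fun y hy => ?_⟩
    have a1 := g2 y hy
    have a2 : |φ y - f k y| ≤ dist φ (f k) := ContinuousMap.dist_apply_le_dist (f := φ) (g := f k) y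
    simp only [ContinuousMap.sub_apply] at a1 ⊢
    rw [abs_le] at *; constructor <;> linarith [a1.1, a1.2, a2.1, a2.2]

omit [CompactSpace K] in
lemma round {V P : Set K} (hV : V.Countable) (hVP : univ = V ∪ P) (u : C(K, ℝ)) {a b : ℝ} (ha : 1 ≤ a)
    (hab : a < b) (hu : Bd P u a) : ∃ γ : C(K, ℝ), (∀ y, ∃ m : ℤ, γ y = 2 * m) ∧ (∀ y ∈ P, γ y = 0) ∧
      ∀ y, |u y - γ y| ≤ b := by
  obtain ⟨c, hc, hc'⟩ : ∃ c ∈ Ioo a b, c ∉ ⋃ m : ℤ, (fun y => |u y| - 2 * m) '' V := by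
    by_contra h
    push Not at h
    have := (countable_iUnion fun m : ℤ => hV.image fun y => |u y| - 2 * m).mono h
    rw [← Cardinal.le_aleph0_iff_set_countable, Cardinal.mk_Ioo_real hab] at this
    exact absurd this (not_le.2 Cardinal.aleph0_lt_continuum)
  let r : ℝ → ℤ := fun t => max 0 (⌊(t - c) / 2⌋ + 1)
  have r0 : ∀ t < c, r t = 0 := fun t ht => by
    have : ⌊(t - c) / 2⌋ < 0 := Int.floor_lt.2 (by simp only [Int.cast_zero]; linarith)
    simp only [r]; omega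
  have hr : ∀ y, ContinuousAt (fun y => r (u y) - r (-u y)) y := by
    intro y
    have one : ∀ v : C(K, ℝ), (∀ z, |v z| = |u z|) → ∀ᶠ z in 𝓝 y, r (v z) = r (v y) := by
      intro v hv
      by_cases h : v y < c
      · exact (v.continuous.continuousAt.eventually (gt_mem_nhds h)).mono fun z hz => by rw [r0 _ hz, r0 _ h]
      · push Not at h
        have hy : y ∈ V := by
          rcases (hVP ▸ mem_univ y : y ∈ V ∪ P) with h1 | h1
          · exact h1
          · have := hu y h1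
            linarith [hv y, le_abs_self (v y), hc.1]
        have h2 : (⌊(v y - c) / 2⌋ : ℝ) < (v y - c) / 2 := by
          refine (Int.floor_le _).lt_of_ne fun e => hc' (mem_iUnion.2 ⟨⌊(v y - c) / 2⌋, y, hy, ?_⟩)
          simp only
          rw [← hv, abs_of_nonneg (by linarith [hc.1])]; linarith
        have h3 : ContinuousAt (fun z => (v z - c) / 2) y := by fun_prop
        filter_upwards [h3.eventually (lt_mem_nhds h2), h3.eventually (gt_mem_nhds (Int.lt_floor_add_one _))]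
          with z z1 z2
        simp only [r]
        rw [Int.floor_eq_iff.2 ⟨z1.le, z2⟩]
    refine continuousAt_const.congr (f := fun _ => r (u y) - r (-u y)) ?_
    filter_upwards [one u fun _ => rfl, one (-u) fun _ => by simp] with z z1 z2
    simp only [ContinuousMap.neg_apply] at z2
    rw [z1, z2]
  have est : ∀ t : ℝ, 0 ≤ t → |t - 2 * (r t : ℝ)| ≤ b := by
    intro t ht
    by_cases h : t < c
    · rw [r0 t h]; simp only [Int.cast_zero, mul_zero, sub_zero]; rw [abs_of_nonneg ht]; linarith [hc.2]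
    · have a1 : 0 ≤ ⌊(t - c) / 2⌋ := Int.floor_nonneg.2 (by linarith)
      have a2 : r t = ⌊(t - c) / 2⌋ + 1 := max_eq_right (by omega)
      have a3 := Int.floor_le ((t - c) / 2)
      have a4 := Int.lt_floor_add_one ((t - c) / 2)
      rw [a2, abs_le]; push_cast; constructor <;> linarith [hc.1, hc.2]
  refine ⟨⟨fun y => 2 * ((r (u y) - r (-u y) : ℤ) : ℝ), continuous_const.mul
    (Int.isUniformEmbedding_coe_real.uniformContinuous.continuous.comp (continuous_iff_continuousAt.2 hr))⟩,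
    fun y => ⟨_, rfl⟩, fun y hy => ?_, fun y => ?_⟩
  · have := abs_le.1 (hu y hy)
    simp only [ContinuousMap.coe_mk]
    rw [r0 _ (by linarith [hc.1]), r0 _ (by linarith [hc.1])]; simp
  · simp only [ContinuousMap.coe_mk]
    rcases le_total 0 (u y) with h | h
    · rw [r0 (-u y) (by linarith [hc.1])]; simpa using est _ h
    · rw [r0 (u y) (by linarith [hc.1]), ← abs_neg]
      convert est (-u y) (by linarith) using 2
      push_cast; ring

lemma upper {r : ℝ} (hr : 1 < r) : ∃ P : AddSubgroup C(K, ℝ),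
    (∀ x, ∃ p ∈ P, ‖x - p‖ ≤ r) ∧ ∀ p ∈ P, ∀ q ∈ P, p ≠ q → 2 ≤ ‖p - q‖ := by
  obtain ⟨V, P, hV, hP, hVP⟩ := exists_countable_union_perfect_of_isClosed (isClosed_univ (X := K))
  obtain ⟨L, l1, l2⟩ := lattice hP.acc (ε := (r - 1) / 4) (by linarith)
  let G : AddSubgroup C(K, ℝ) :=
    { carrier := {γ | (∀ y, ∃ m : ℤ, γ y = 2 * m) ∧ ∀ y ∈ P, γ y = 0}
      zero_mem' := ⟨fun _ => ⟨0, by simp⟩, fun _ _ => rfl⟩
      add_mem' := fun {a b} ha hb => ⟨fun y => by
        obtain ⟨m, hm⟩ := ha.1 y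
        obtain ⟨n, hn⟩ := hb.1 y
        exact ⟨m + n, by simp [hm, hn, mul_add]⟩, fun y hy => by simp [ha.2 y hy, hb.2 y hy]⟩
      neg_mem' := fun {a} ha => ⟨fun y => by
        obtain ⟨m, hm⟩ := ha.1 y
        exact ⟨-m, by simp [hm]⟩, fun y hy => by simp [ha.2 y hy]⟩ }
  refine ⟨L ⊔ G, fun f => ?_, fun p hp q hq hpq => ?_⟩
  · obtain ⟨g, g1, g2⟩ := l2 f
    obtain ⟨γ, c1, c2, c3⟩ := round hV hVP (f - g) (by linarith) (by linarith : _ < r) g2
    refine ⟨g + γ, AddSubgroup.add_mem_sup g1 ⟨c1, c2⟩, (ContinuousMap.norm_le _ (by linarith)).2 fun y => ?_⟩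
    rw [← sub_sub]; exact c3 y
  · obtain ⟨h, hh, γ, hγ, e⟩ := AddSubgroup.mem_sup.1 ((L ⊔ G).sub_mem hp hq)
    by_contra hc
    push Not at hc
    have h0 := l1 h hh _ hc fun y hy => by
      have := (p - q).norm_coe_le_norm y
      rw [← e] at this ⊢
      simpa [hγ.2 y hy] using this
    subst h0
    apply hpq
    rw [← sub_eq_zero, ← e, zero_add]
    rw [← e, zero_add] at hc
    ext y
    obtain ⟨m, hm⟩ := hγ.1 y
    have a1 := (γ.norm_coe_le_norm y).trans_lt hc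
    rw [hm, Real.norm_eq_abs, abs_lt] at a1
    have a2 : (-1 : ℤ) < m := by exact_mod_cast (by linarith [a1.1] : (-1 : ℝ) < m)
    have a3 : m < (1 : ℤ) := by exact_mod_cast (by linarith [a1.2] : (m : ℝ) < 1)
    have : m = 0 := by omega
    simp [hm, this]

lemma lower {X : Type} [NormedAddCommGroup X] [NormedSpace ℝ X] [Nontrivial X] {r : ℝ} (P : AddSubgroup X)
    (h1 : ∀ x : X, ∃ p ∈ P, ‖x - p‖ ≤ r) (h2 : ∀ p ∈ P, ∀ q ∈ P, p ≠ q → 2 ≤ ‖p - q‖) : 1 ≤ r := by
  by_contra hr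
  push Not at hr
  obtain ⟨x, hx⟩ := NormedSpace.exists_lt_norm ℝ X 0
  obtain ⟨p, hp, h⟩ := h1 (‖x‖⁻¹ • x)
  have e : ‖‖x‖⁻¹ • x‖ = 1 := by rw [norm_smul, norm_inv, norm_norm, inv_mul_cancel₀ hx.ne']
  have hp0 : p ≠ 0 := by rintro rfl; rw [sub_zero, e] at h; linarith
  have a1 := h2 p hp 0 P.zero_mem hp0
  have a2 := norm_sub_le (‖x‖⁻¹ • x) (‖x‖⁻¹ • x - p)
  rw [sub_sub_cancel, e] at a2
  rw [sub_zero] at a1
  linarith

theorem result (K : Type) [TopologicalSpace K] [CompactSpace K] [TopologicalSpace.MetrizableSpace K]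
    [Nonempty K] : gammaStar C(K, ℝ) = 1 := by
  let _ := TopologicalSpace.metrizableSpaceMetric K
  refine le_antisymm (le_of_forall_gt_imp_ge_of_dense fun r hr => csInf_le ⟨0, fun s hs => hs.1.le⟩
    ⟨by linarith, upper hr⟩) (le_csInf ⟨2, by norm_num, upper (by norm_num)⟩ ?_)
  rintro r ⟨-, P, h1, h2⟩
  exact lower P h1 h2

end Pool.Agent.Results.MP_2e9bdd_an.Metrisable
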